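import Pool.Agent.Lib.MP_bc213e_ag.SB.M.Bas
import Pool.Agent.Lib.MP_bc213e_ag.DB.GCD
import Pool.Agent.Lib.MP_bc213e_ag.KBN.Noeth
import Pool.Agent.Lib.MP_bc213e_ag.OW.G.Val

/-! Normal projective models adapted to a finite cover of the space of valuation rings. -/

namespace Pool.Agent.Lib.MP_bc213e_ag.SB

open Pool.Agent.Lib.MP_bc213e_ag.Hyp Pool.Agent.Lib.MP_bc213e_ag.OW

variable {K E : Type} [Field K] [Algebra ℂ K]

theorem mod_le {η : E → Kˣ} {e : E} {V : ValuationSubring K} :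
    (∀ r ∈ chart η e, r ∈ V) ↔ (∀ c : ℂ, algebraMap ℂ K c ∈ V) ∧ ∀ l, (η l : K) / η e ∈ V := by
  refine ⟨fun h => ⟨fun c => h _ (Subalgebra.algebraMap_mem _ c),
    fun l => h _ (Algebra.subset_adjoin ⟨l, rfl⟩)⟩, fun h r hr => ?_⟩
  induction hr using Algebra.adjoin_induction with
  | mem r hr =>
    obtain ⟨l, rfl⟩ := hr
    exact h.2 l
  | algebraMap c => exact h.1 c
  | add _ _ _ _ h1 h2 => exact add_mem h1 h2
  | mul _ _ _ _ h1 h2 => exact mul_mem h1 h2

/-- The intersection of the valuation rings over a chart. -/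
def modB (η : E → Kˣ) (e : E) : Subring K :=
  ⨅ V : {V : ValuationSubring K // ∀ r ∈ chart η e, r ∈ V}, V.1.toSubring

theorem mem_modB {η : E → Kˣ} {e : E} {f : K} :
    f ∈ modB η e ↔ ∀ V : ValuationSubring K, (∀ r ∈ chart η e, r ∈ V) → f ∈ V := by
  rw [modB, Subring.mem_iInf]
  exact ⟨fun h V hV => h ⟨V, hV⟩, fun h V => h V.1 V.2⟩

theorem mod_clear (η : E → Kˣ) (e : E) {u f : K} (hu : u ∈ modB η e) (h0 : u ≠ 0)
    (h : ∀ V : ValuationSubring K, (∀ r ∈ chart η e, r ∈ V) → u⁻¹ ∈ V → f ∈ V) :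
    ∃ c : ℕ, f * u ^ c ∈ modB η e := by
  obtain ⟨c, hc⟩ := clear_pow (modB η e) hu h0 fun V hV =>
    h V fun r hr => hV r (mem_modB.2 fun W hW => hW r hr)
  exact ⟨c, mem_modB.2 fun V hV => hc V fun r hr => mem_modB.1 hr V hV⟩

theorem mod_Bd {η : E → Kˣ} {e₀ : E} (one : η e₀ = 1) (e : E) {a : ℕ} {r : K}
    (hr : r ∈ DB.Bd ℂ (fun l => (η l : K)) a) : r / (η e : K) ^ a ∈ modB η e :=
  mem_modB.2 fun V hV => hr V _ (mod_le.1 hV).1 (η e).ne_zero
    (by simpa [one] using (mod_le.1 hV).2 e₀) (mod_le.1 hV).2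

theorem mod_hom [Fintype E] (η : E → Kˣ) (e : E) {F : K} (hF : F ∈ modB η e) (d : ℕ) :
    ∃ j, F * (η e : K) ^ (d + j) ∈ DB.Bd ℂ (fun l => (η l : K)) (d + j) := by
  have : Nonempty E := ⟨e⟩
  have h1 : ∀ l, (η e : K) / η l ∈ modB η l := fun l => mem_modB.2 fun V hV => (mod_le.1 hV).2 e
  choose c hc using fun l => mod_clear η l (f := F) (h1 l)
    (div_ne_zero (η e).ne_zero (η l).ne_zero) fun V hV hu => mem_modB.1 hF V
      (mod_le.2 ⟨(mod_le.1 hV).1, fun m => by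
        have := mul_mem ((mod_le.1 hV).2 m) hu
        rwa [inv_div, div_mul_div_cancel₀ (η l).ne_zero] at this⟩)
  refine ⟨Finset.univ.sup c, fun O z h2 h3 _ h4 => ?_⟩
  obtain ⟨l, hl⟩ := exists_chart_le η O h2
  obtain ⟨i, hi⟩ := Nat.exists_eq_add_of_le
    ((Finset.le_sup (f := c) (Finset.mem_univ l)).trans (Nat.le_add_left _ d))
  have h5 := mul_mem (mem_modB.1 (mul_mem (hc l) (pow_mem (h1 l) i)) O hl)
    (pow_mem (h4 l) (c l + i))
  rwa [mul_assoc F, ← pow_add, mul_assoc, ← mul_pow, div_mul_div_cancel₀ (η l).ne_zero, div_pow,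
    ← mul_div_assoc, ← hi] at h5

theorem mod_span (A : Subalgebra ℂ K) {S : Set K} {z : K} (h : ∀ s ∈ S, s / z ∈ A) {r : K}
    (hr : r ∈ Submodule.span ℂ S) : r / z ∈ A := by
  induction hr using Submodule.span_induction with
  | mem s hs => exact h s hs
  | zero => simp
  | add a b _ _ ha hb => rw [add_div]; exact add_mem ha hb
  | smul c a _ ha => rw [Algebra.smul_def, mul_div_assoc]; exact mul_mem (A.algebraMap_mem c) ha

theorem mod_pow (A : Subalgebra ℂ K) {W : Submodule ℂ K} {z : K} (h : ∀ s ∈ W, s / z ∈ A) (j : ℕ)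
    {r : K} (hr : r ∈ W ^ j) : r / z ^ j ∈ A := by
  induction hr using Submodule.pow_induction_on_left' with
  | algebraMap c => simp
  | add a b i _ _ ha hb => rw [add_div]; exact add_mem ha hb
  | mem_mul a ha i b _ hb => rw [pow_succ', mul_div_mul_comm]; exact mul_mem (h a ha) hb

theorem mod_frac {η : E → Kˣ} {e₀ : E} (one : η e₀ = 1)
    (gen : IntermediateField.adjoin ℂ (Set.range fun l => (η l : K)) = ⊤) (e : E)
    (A : Subalgebra ℂ K) (hA : ∀ l, (η l : K) / η e ∈ A) : IsFractionRing A K := by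
  have h1 : IntermediateField.adjoin ℂ (A : Set K) = ⊤ := by
    rw [eq_top_iff, ← gen, IntermediateField.adjoin_le_iff]
    rintro _ ⟨l, rfl⟩
    have := div_mem (IntermediateField.subset_adjoin ℂ (A : Set K) (hA l))
      (IntermediateField.subset_adjoin ℂ (A : Set K) (hA e₀))
    rwa [div_div_div_cancel_right₀ (η e).ne_zero, one, Units.val_one, div_one] at this
  refine .of_field _ _ fun z => ?_
  obtain ⟨r, hr, s, hs, h⟩ := IntermediateField.mem_adjoin_iff_div.1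
    (h1 ▸ IntermediateField.mem_top : z ∈ IntermediateField.adjoin ℂ (A : Set K))
  rw [Algebra.adjoin_eq] at hr hs
  exact ⟨⟨r, hr⟩, ⟨s, hs⟩, h⟩

/-- The normalisation of a projective model. -/
theorem mod_norm [Algebra.EssFiniteType ℂ K] [Fintype E] {η : E → Kˣ} {e₀ : E} (one : η e₀ = 1)
    (gen : IntermediateField.adjoin ℂ (Set.range fun l => (η l : K)) = ⊤) :
    ∃ (M : Type) (_ : Finite M) (y : M → Kˣ) (m₀ : M), y m₀ = 1 ∧ ∀ b,
      (IsFractionRing (chart y b) K ∧ IsIntegrallyClosed (chart y b)) ∧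
        ∃ e, ∀ f ∈ modB η e, f ∈ chart y b := by
  obtain ⟨n, hn⟩ := Cardinal.lt_aleph0.1 (trdeg_lt_aleph0 ℂ K)
  have hW : (Submodule.span ℂ (Set.range fun l => (η l : K))).FG :=
    Submodule.fg_span (Set.finite_range _)
  have hle := DB.span_le_Bd (𝕜 := ℂ) fun l => (η l : K)
  obtain ⟨M₀, hM₀, hM⟩ := DB.gcd_mod (fun l => (η l : K)) (fun l => (η l : K))
    (fun l => ⟨1, hle (Submodule.subset_span ⟨l, rfl⟩)⟩) gen hn _ hW
    (Submodule.subset_span ⟨e₀, by simp [one]⟩) fun l => Submodule.subset_span ⟨l, rfl⟩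
  obtain ⟨d, hd⟩ := KBN.noeth_gen hW hM₀ _ hM fun μ =>
    Submodule.mul_le.2 fun r hr s hs => add_comm 1 μ ▸ DB.mul_mem_Bd _ (hle hr) hs
  obtain ⟨S, hS, hS'⟩ := Submodule.fg_def.1 (((hW.pow d).mul hM₀).of_le (hM d))
  let ρ : Set Kˣ := {u | u = 1 ∨ (u : K) ∈ S}
  have : Finite ρ := (Set.finite_singleton 1).union (hS.preimage Units.val_injective.injOn)
  have hρ : ∀ m : ρ, (m.1 : K) ∈ DB.Bd ℂ (fun l => (η l : K)) d := fun m => m.2.elim
    (fun h => by
      rw [h]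
      exact DB.Bd_mono _ d.zero_le fun O c _ _ _ _ => by simp)
    fun h => hS' ▸ Submodule.subset_span h
  refine ⟨E × ρ, inferInstance, fun p => η p.1 * p.2.1, (e₀, ⟨1, Or.inl rfl⟩), by simp [one], ?_⟩
  rintro ⟨e, m⟩
  set A := chart (fun p : E × ρ => η p.1 * p.2.1) (e, m) with hA
  have he := (η e).ne_zero
  have hm := m.1.ne_zero
  have a1 : ∀ l, (η l : K) / η e ∈ A := fun l => Algebra.subset_adjoin ⟨(l, m), by
    simp only [Units.val_mul, mul_div_mul_right _ _ hm]⟩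
  have a2 : ∀ r ∈ DB.Bd ℂ (fun l => (η l : K)) d, r / m.1 ∈ A := fun r hr =>
    mod_span A (fun s hs => (eq_or_ne s 0).elim (fun h => by simp [h]) fun h =>
      Algebra.subset_adjoin ⟨(e, ⟨Units.mk0 s h, Or.inr hs⟩), by
        simp only [Units.val_mul, mul_div_mul_left _ _ he, Units.val_mk0]⟩) (hS' ▸ hr)
  have u1 := mod_Bd one e (hρ m)
  have u0 : (m.1 : K) / (η e : K) ^ d ≠ 0 := div_ne_zero hm (pow_ne_zero _ he)
  have a3 : ∀ F ∈ modB η e, F ∈ A := fun F hF => by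
    obtain ⟨j, hj⟩ := mod_hom η e (mul_mem hF u1) d
    have h1 : F * (m.1 / (η e : K) ^ d) * (η e : K) ^ (d + j) / ((η e : K) ^ j * m.1) ∈ A := by
      refine Submodule.mul_induction_on (KBN.noeth_pow hd le_rfl j hj) (fun w hw r hr => ?_)
        fun a b ha hb => by rw [add_div]; exact add_mem ha hb
      rw [mul_div_mul_comm]
      exact mul_mem (mod_pow A (fun s hs => mod_span A (by rintro _ ⟨l, rfl⟩; exact a1 l) hs) j hw)
        (a2 r hr)
    rwa [show F * (m.1 / (η e : K) ^ d) * (η e : K) ^ (d + j) / ((η e : K) ^ j * m.1) = F by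
      field_simp; ring] at h1
  have fr := mod_frac one gen e A a1
  refine ⟨⟨fr, (isIntegrallyClosed_iff K).2 fun {f} hf => ?_⟩, e, a3⟩
  obtain ⟨c, hc⟩ := mod_clear η e (f := f) u1 u0 fun V hV hu => by
    have h1 : ∀ r ∈ A, r ∈ V := mod_le.2 ⟨(mod_le.1 hV).1, fun p => by
      have := mul_mem (mul_mem ((mod_le.1 hV).2 p.1) (mem_modB.1 (mod_Bd one e (hρ p.2)) V hV)) hu
      rwa [show (η p.1 : K) / η e * (p.2.1 / (η e : K) ^ d) * (m.1 / (η e : K) ^ d)⁻¹ =
        ((η p.1 * p.2.1 : Kˣ) : K) / ((η e * m.1 : Kˣ) : K) by push_cast; field_simp] at this⟩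
    obtain ⟨p, hp, hp'⟩ := hf
    obtain ⟨v, rfl⟩ := IsIntegrallyClosed.isIntegral_iff.1 (show IsIntegral V f from
      ⟨p.map (A.val.toRingHom.codRestrict V fun r => h1 r r.2), hp.map _, by
        rw [Polynomial.eval₂_map]; exact hp'⟩)
    exact v.2
  have h2 := a2 _ (by simpa using DB.pow_mem_Bd _ (hle (Submodule.subset_span ⟨e, rfl⟩)) d)
  have h3 := mul_mem (a3 _ hc) (pow_mem h2 c)
  rw [mul_assoc, ← mul_pow, div_mul_div_cancel₀ (pow_ne_zero _ he), div_self hm, one_pow,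
    mul_one] at h3
  exact ⟨⟨f, h3⟩, rfl⟩

/-- A projective model each of whose charts lies over a member of the cover. -/
theorem mod_pre [Algebra.EssFiniteType ℂ K] {κ : Type} [Fintype κ] (T : κ → Set K)
    (fin : ∀ i, (T i).Finite) (cover : ∀ V, Ov ∅ V → ∃ i, Ov (T i) V) :
    ∃ (E : Type) (_ : Finite E) (η : E → Kˣ) (e₀ : E), η e₀ = 1 ∧
      IntermediateField.adjoin ℂ (Set.range fun l => (η l : K)) = ⊤ ∧
        ∀ e, ∃ i, ∀ z ∈ T i, z ∈ modB η e := by
  classical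
  obtain ⟨s, hs⟩ := IntermediateField.fg_top ℂ K
  obtain ⟨i₀, -⟩ := cover ⊤ ⟨fun _ => trivial, fun _ h => h.elim⟩
  let S : Option κ → Set Kˣ := fun l => {u | u = 1 ∨ (u : K) ∈ l.elim (s : Set K) T}
  have hS : ∀ l, (S l).Finite := fun l => (Set.finite_singleton 1).union
    ((show (l.elim (s : Set K) T).Finite by cases l; exacts [s.finite_toSet, fin _]).preimage
      Units.val_injective.injOn)
  have : Finite {a : Option κ → Kˣ | ∀ l, a l ∈ S l} := Set.Finite.pi' hS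
  refine ⟨κ × {a : Option κ → Kˣ | ∀ l, a l ∈ S l}, inferInstance,
    fun p => ∏ l ∈ Finset.univ.erase (some p.1), p.2.1 l, (i₀, ⟨1, fun _ => Or.inl rfl⟩), by simp,
    ?_, ?_⟩
  · rw [eq_top_iff, ← hs, IntermediateField.adjoin_le_iff]
    intro z hz
    rcases eq_or_ne z 0 with rfl | h0
    · exact zero_mem _
    refine IntermediateField.subset_adjoin ℂ _ ⟨(i₀, ⟨Function.update 1 none (Units.mk0 z h0),
      fun l => ?_⟩), ?_⟩
    · cases l
      exacts [Or.inr hz, Or.inl rfl]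
    · dsimp only
      rw [Finset.prod_update_of_mem (by simp)]
      simp
  · rintro ⟨i, a⟩
    refine ⟨i, fun z hz => mem_modB.2 fun V hV => ?_⟩
    obtain ⟨h1, h2⟩ := mod_le.1 hV
    obtain ⟨k, hk⟩ := cover V ⟨h1, fun _ h => h.elim⟩
    choose b hb hb' using fun l => Set.exists_max_image (S l) (fun u => V.valuation (u : K)) (hS l)
      ⟨1, Or.inl rfl⟩
    have h3 := (V.valuation_le_one_iff _).2 (h2 (k, ⟨b, hb⟩))
    have h0 : ∀ u : Kˣ, 0 < V.valuation (u : K) := fun u =>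
      zero_lt_iff.2 ((map_ne_zero _).2 u.ne_zero)
    rw [map_div₀, div_le_one₀ (h0 _), Units.coe_prod, Units.coe_prod, map_prod, map_prod] at h3
    have h4 : V.valuation (b (some k) : K) ≤ 1 := (hb (some k)).elim (fun h => by simp [h])
      fun h => (V.valuation_le_one_iff _).2 (hk.2 _ h)
    have h5 := (Finset.mul_prod_erase _ (fun l => V.valuation (b l : K))
      (Finset.mem_univ (some i))).trans (Finset.mul_prod_erase _ _ (Finset.mem_univ (some k))).symm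
    have h6 : V.valuation (b (some i) : K) ≤ 1 := (mul_le_iff_le_one_left
      (Finset.prod_pos fun l _ => h0 _)).1 (h5.trans_le ((mul_le_of_le_one_left' h4).trans
        (h3.trans (Finset.prod_le_prod' fun l _ => hb' l _ (a.2 l)))))
    rcases eq_or_ne z 0 with rfl | hz0
    · exact zero_mem _
    exact (V.valuation_le_one_iff _).1 ((hb' (some i) (Units.mk0 z hz0) (Or.inr hz)).trans h6)

theorem exists_model [Algebra.EssFiniteType ℂ K] {κ : Type} [Fintype κ] (T : κ → Set K)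
    (fin : ∀ i, (T i).Finite) (cover : ∀ V, Ov ∅ V → ∃ i, Ov (T i) V) :
    ∃ (N : ℕ) (y : Fin (N + 1) → Kˣ), y 0 = 1 ∧
      (∀ b, IsFractionRing (chart y b) K ∧ IsIntegrallyClosed (chart y b)) ∧
      ∀ b, ∃ i, ∀ z ∈ T i, z ∈ chart y b := by
  obtain ⟨E, _, η, e₀, one, gen, h1⟩ := mod_pre T fin cover
  have := Fintype.ofFinite E
  obtain ⟨M, _, y, m₀, h2, h3⟩ := mod_norm one gen
  obtain ⟨N, ⟨σ⟩⟩ := Finite.exists_equiv_fin M
  let τ : Fin (N + 1) → M := Fin.cons m₀ σ.symm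
  have h4 : ∀ b, chart (y ∘ τ) b = chart y (τ b) := fun b => congrArg (Algebra.adjoin ℂ)
    (Function.Surjective.range_comp (f := τ) (fun m => ⟨(σ m).succ, σ.symm_apply_apply m⟩)
      fun j => (y j : K) / y (τ b))
  refine ⟨N, y ∘ τ, h2, fun b => h4 b ▸ (h3 _).1, fun b => ?_⟩
  obtain ⟨e, he⟩ := (h3 (τ b)).2
  obtain ⟨i, hi⟩ := h1 e
  exact ⟨i, fun z hz => h4 b ▸ he z (hi z hz)⟩

end Pool.Agent.Lib.MP_bc213e_ag.SB
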