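import Pool.Agent.Lib.MP_bc213e_ag.SB.M.Mod
import Pool.Agent.Lib.MP_bc213e_ag.OW.E.Main
import Pool.Agent.Lib.MP_bc213e_ag.OW.G.Val

/-! Vanishing of the first cohomology of all normal models, on the space of valuation rings. -/

namespace Pool.Agent.Lib.MP_bc213e_ag.SB

open Pool.Agent.Lib.MP_bc213e_ag.Hyp Pool.Agent.Lib.MP_bc213e_ag.OW WithZero Ce

variable {K : Type} [Field K] [Algebra ℂ K]

/-- The additive Cousin problem on a normal model with vanishing first cohomology. -/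
theorem cousin {N : ℕ} {y : Fin (N + 1) → Kˣ}
    (normal : ∀ i, IsFractionRing (chart y i) K ∧ IsIntegrallyClosed (chart y i))
    (h1 : hC (Sect (0 : Prm y →₀ ℤ)) 1 = 0) (φ : Fin (N + 1) → K)
    (hφ : ∀ a b, φ b - φ a ∈ Sect (0 : Prm y →₀ ℤ) {a, b}) :
    ∃ f₀, ∀ b, φ b - f₀ ∈ chart y b := by
  obtain ⟨M, -, h2⟩ := exists_coh normal (0 : Prm y →₀ ℤ)
  have fd := (Coh.pol 0 M (Coh.bot y) fun _ => bot_le).1 0 1
  have e : ∀ p, coch (Sect (0 : Prm y →₀ ℤ)) (p + 1) = M.C 0 (p + 1) := fun p => by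
    unfold coch Coh.C cc
    congr 1
    funext σ
    by_cases hs : σ.card = p + 1
    · have : σ.Nonempty := Finset.card_pos.1 (by omega)
      rw [if_pos hs, if_pos ⟨hs, this⟩, h2 σ this]
    · rw [if_neg hs, if_neg fun h => hs h.1]
  rw [C_bot 0] at fd
  have h3 : hP (dC K (N + 1)) (M.C 0) (fun _ => ⊥) 1 = 0 := by
    refine (Cardinal.toNat_eq_zero.1 (Eq.trans ?_ h1)).resolve_right fd.not_ge
    unfold hC qdim hP rk
    rw [e, sup_bot_eq, Submodule.comap_bot, if_neg one_ne_zero, e]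
    rfl
  let c : Finset (Fin (N + 1)) → K := fun σ => ∑ b, if σ = {b} then φ b else 0
  have c1 : ∀ b, c {b} = φ b := fun b => by simp [c]
  have c2 : c ∈ cc (fun _ => (⊤ : Submodule ℂ K)) 1 := mem_cc.2 fun σ =>
    ⟨fun _ => trivial, fun hs => Finset.sum_eq_zero fun b _ => if_neg fun h => hs (by simp [h])⟩
  have c3 : dC K (N + 1) c ∈ M.C 0 2 := mem_cc.2 fun σ => ⟨fun hs => by
    obtain ⟨a, b, hab, rfl⟩ : ∃ a b, a < b ∧ σ = {a, b} := by
      obtain ⟨a, b, hab, rfl⟩ := Finset.card_eq_two.1 hs.1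
      rcases lt_or_gt_of_ne hab with h | h
      · exact ⟨a, b, h, rfl⟩
      · exact ⟨b, a, h, Finset.pair_comm _ _⟩
    rw [h2 _ hs.2, dC_eq, MP_4287a9_ag.cdel_pair c hab, c1, c1]
    exact hφ a b, (mem_cc.1 (cc_cx (fun _ _ _ => le_rfl) 1 c c2) σ).2⟩
  have h4 := rk_eq_zero.1 h3 ⟨c3, dC_dC c⟩
  rw [sup_bot_eq] at h4
  obtain ⟨ψ, h5, h6⟩ := h4
  have h7 : ∀ {a b}, a < b → φ b - ψ {b} = φ a - ψ {a} := fun {a b} hab => by
    have h := congrFun h6 {a, b}
    rw [dC_eq, dC_eq, MP_4287a9_ag.cdel_pair _ hab, MP_4287a9_ag.cdel_pair _ hab, c1, c1] at h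
    linear_combination -h
  refine ⟨φ 0 - ψ {0}, fun b => ?_⟩
  have h8 : φ b - (φ 0 - ψ {0}) = ψ {b} := by
    rcases eq_or_lt_of_le (Fin.zero_le b) with h | h
    · rw [← h, sub_sub_cancel]
    · rw [← h7 h, sub_sub_cancel]
  have h9 := (mem_cc.1 h5 {b}).1 (by simp)
  rw [h2 _ (by simp)] at h9
  have := (normal b).1
  have := (normal b).2
  have := chart_noeth y b
  obtain ⟨n, hn⟩ := exists_pow_mem (A := chart y b) (z := ψ {b}) (one_mem _) fun w hw _ => by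
    simpa using h9 ⟨w, b, hw⟩ (by simpa using hw)
  rw [h8]
  simpa using hn

theorem zq_of_models [Algebra.EssFiniteType ℂ K]
    (irr : ∀ (N : ℕ) (y : Fin (N + 1) → Kˣ),
      (∀ i, IsFractionRing (chart y i) K ∧ IsIntegrallyClosed (chart y i)) →
        hC (Sect (0 : Prm y →₀ ℤ)) 1 = 0) : ZQ K := by
  intro κ _ T f fin cov coc
  obtain ⟨N, y, -, normal, h⟩ := exists_model T fin cov
  choose i hi using h
  have ov : ∀ b (V : ValuationSubring K), (∀ r ∈ chart y b, r ∈ V) → Ov (T (i b)) V :=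
    fun b V hV => ⟨fun c => hV _ ((chart y b).algebraMap_mem c), fun z hz => hV _ (hi b z hz)⟩
  obtain ⟨f₀, h₀⟩ := cousin normal (irr N y normal) (fun b => f (i b)) fun a b w hw =>
    coc _ _ w.1.valuationSubring (ov b _ (hw b (by simp)).2.1) (ov a _ (hw a (by simp)).2.1)
  refine ⟨f₀, fun l V hV => ?_⟩
  obtain ⟨b, hb⟩ := exists_chart_le y V hV.1
  simpa using add_mem (coc _ _ V hV (ov b V hb)) (hb _ (h₀ b))

end Pool.Agent.Lib.MP_bc213e_ag.SB
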