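import Pool.Agent.Lib.MP_bc213e_ag.SB.M.Bas
import Pool.Agent.Lib.MP_bc213e_ag.SB.M.Mod
import Pool.Agent.Lib.MP_bc213e_ag.SB.M.ZQ

/-! Normal projective models adapted to a finite cover of the space of valuation rings. -/
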