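import Pool.Agent.Lib.MP_bc213e_ag.SB.Defs

/-! Basic facts on the space of valuation rings. -/

namespace Pool.Agent.Lib.MP_bc213e_ag.SB

open Pool.Agent.Lib.MP_bc213e_ag.Hyp Filter

variable {K : Type} [Field K] [Algebra ℂ K]

omit [Algebra ℂ K] in
/-- Extension of valuation rings. -/
theorem exists_ext {k : Type} [Field k] [Algebra k K] (O : ValuationSubring k) :
    ∃ V : ValuationSubring K, ∀ c : k, algebraMap k K c ∈ V ↔ c ∈ O := by
  obtain ⟨V, h, hl⟩ := IsLocalRing.exists_factor_valuationRing (R := O)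
    ((algebraMap k K).comp O.toSubring.subtype)
  refine ⟨V, fun c => ⟨fun hc => ?_, fun hc => h ⟨c, hc⟩⟩⟩
  by_contra hn
  have h0 : c ≠ 0 := fun e => hn (e ▸ O.zero_mem)
  have hi : c⁻¹ ∈ O := (O.mem_or_inv_mem c).resolve_left hn
  obtain ⟨b, hb⟩ := isUnit_iff_exists_inv.1 (hl.1 ⟨c⁻¹, hi⟩ (isUnit_iff_exists_inv.2
    ⟨⟨algebraMap k K c, hc⟩, Subtype.ext
      ((map_mul (algebraMap k K) c⁻¹ c).symm.trans (by simp [h0]))⟩))
  have e : (b : k) = c := by
    simpa [Subtype.ext_iff, inv_mul_eq_iff_eq_mul₀ h0] using hb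
  exact hn (e ▸ b.2)

theorem int_of_val (A : Subalgebra ℂ K) {r : K}
    (hr : ∀ V : ValuationSubring K, (∀ a ∈ A, a ∈ V) → r ∈ V) : IsIntegral A r := by
  have h1 : r ∈ (integralClosure (Subring.closure (A : Set K)) K).toSubring := by
    rw [← iInf_valuationSubring_superset, Subring.mem_iInf]
    exact fun V => hr V.1 V.2
  rwa [show Subring.closure (A : Set K) = A.toSubring from Subring.closure_eq A.toSubring] at h1

/-- A normal ring is the intersection of the valuation rings that contain it. -/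
theorem mem_of_val (A : Subalgebra ℂ K) [IsFractionRing A K] [IsIntegrallyClosed A] {f : K}
    (h : ∀ V : ValuationSubring K, (∀ r ∈ A, r ∈ V) → f ∈ V) : f ∈ A := by
  obtain ⟨y, rfl⟩ := IsIntegrallyClosed.algebraMap_eq_of_integral (int_of_val A h)
  exact y.2

omit [Algebra ℂ K] in
/-- Clearing a denominator. -/
theorem clear_pow (A : Subring K) {u f : K} (hu : u ∈ A) (h0 : u ≠ 0)
    (h : ∀ V : ValuationSubring K, (∀ r ∈ A, r ∈ V) → u⁻¹ ∈ V → f ∈ V) :
    ∃ c : ℕ, ∀ V : ValuationSubring K, (∀ r ∈ A, r ∈ V) → f * u ^ c ∈ V := by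
  rcases eq_or_ne f 0 with rfl | hf
  · exact ⟨0, fun V _ => by simp⟩
  let R := Subring.closure (insert f⁻¹ (insert u⁻¹ (A : Set K)))
  have key : ∀ r ∈ R, ∃ c : ℕ, ∀ V : ValuationSubring K, (∀ r ∈ A, r ∈ V) → f⁻¹ ∈ V →
      r * u ^ c ∈ V := fun r hr => by
    induction hr using Subring.closure_induction with
    | mem x hx =>
      rcases hx with rfl | rfl | hx
      · exact ⟨0, fun V _ hV => by simpa using hV⟩
      · exact ⟨1, fun V _ _ => by simp [h0]⟩
      · exact ⟨0, fun V hV _ => by simpa using hV x hx⟩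
    | zero => exact ⟨0, fun V _ _ => by simp⟩
    | one => exact ⟨0, fun V _ _ => by simp⟩
    | add x y _ _ hx hy =>
      obtain ⟨c, hc⟩ := hx
      obtain ⟨d, hd⟩ := hy
      refine ⟨c + d, fun V h1 h2 => ?_⟩
      rw [show (x + y) * u ^ (c + d) = x * u ^ c * u ^ d + y * u ^ d * u ^ c by ring]
      exact add_mem (mul_mem (hc V h1 h2) (pow_mem (h1 u hu) _))
        (mul_mem (hd V h1 h2) (pow_mem (h1 u hu) _))
    | neg x _ hx =>
      obtain ⟨c, hc⟩ := hx
      exact ⟨c, fun V h1 h2 => by rw [neg_mul]; exact neg_mem (hc V h1 h2)⟩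
    | mul x y _ _ hx hy =>
      obtain ⟨c, hc⟩ := hx
      obtain ⟨d, hd⟩ := hy
      refine ⟨c + d, fun V h1 h2 => ?_⟩
      rw [show x * y * u ^ (c + d) = x * u ^ c * (y * u ^ d) by ring]
      exact mul_mem (hc V h1 h2) (hd V h1 h2)
  let φ : R := ⟨f⁻¹, Subring.subset_closure (Or.inl rfl)⟩
  have top : Ideal.span {φ} = ⊤ := by
    by_contra hn
    obtain ⟨V, h1, h2⟩ := Ideal.image_subset_nonunits_valuationSubring _ hn
    exact (V.inv_mem_nonunits_iff.1 (h2 ⟨φ, Ideal.subset_span rfl, rfl⟩)).resolve_left hf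
      (h V (fun r hr => h1 (Subring.subset_closure (Or.inr (Or.inr hr))))
        (h1 (Subring.subset_closure (Or.inr (Or.inl rfl)))))
  obtain ⟨b, hb⟩ := isUnit_iff_exists_inv.1 (Ideal.span_singleton_eq_top.1 top)
  have e : (b : K) = f := by
    simpa [φ, Subtype.ext_iff, inv_mul_eq_iff_eq_mul₀ hf] using hb
  obtain ⟨c, hc⟩ := key f (e ▸ b.2)
  exact ⟨c, fun V hV => (V.mem_or_inv_mem f).elim
    (fun h1 => mul_mem h1 (pow_mem (hV u hu) _)) (hc V hV)⟩

omit [Algebra ℂ K] in
/-- The limit of valuation rings along an ultrafilter. -/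
def ulim {α : Type} (U : Ultrafilter α) (V : α → ValuationSubring K) : ValuationSubring K where
  carrier := {z | ∀ᶠ a in U, z ∈ V a}
  mul_mem' := fun ha hb => (Eventually.and ha hb).mono fun _ h => mul_mem h.1 h.2
  one_mem' := Eventually.of_forall fun a => (V a).one_mem
  add_mem' := fun ha hb => (Eventually.and ha hb).mono fun _ h => add_mem h.1 h.2
  zero_mem' := Eventually.of_forall fun a => (V a).zero_mem
  neg_mem' := fun ha => Eventually.mono ha fun _ h => neg_mem h
  mem_or_inv_mem' := fun z =>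
    Ultrafilter.eventually_or.1 (Eventually.of_forall fun a => (V a).mem_or_inv_mem z)

/-- Compactness of the space of valuation rings. -/
theorem zr_compact (T : ValuationSubring K → Set K) (fin : ∀ O, Ov ∅ O → (T O).Finite)
    (mem : ∀ O, Ov ∅ O → Ov (T O) O) :
    ∃ S : Finset (ValuationSubring K), (∀ O ∈ S, Ov ∅ O) ∧
      ∀ V, Ov ∅ V → ∃ O ∈ S, Ov (T O) V := by
  classical
  by_contra hn
  push Not at hn
  choose V h1 h2 using fun S : Finset (ValuationSubring K) =>
    hn (S.filter (Ov ∅)) fun O hO => (Finset.mem_filter.1 hO).2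
  let U := Ultrafilter.of (atTop : Filter (Finset (ValuationSubring K)))
  have hW : Ov ∅ (ulim U V) :=
    ⟨fun c => Eventually.of_forall fun S => (h1 S).1 c, fun _ h => h.elim⟩
  have e1 : ∀ᶠ S in U, ∀ z ∈ T (ulim U V), z ∈ V S :=
    (eventually_all_finite (fin _ hW)).2 (mem _ hW).2
  have e2 : ∀ᶠ S in (U : Filter (Finset (ValuationSubring K))), {ulim U V} ≤ S :=
    Ultrafilter.of_le _ (eventually_ge_atTop _)
  obtain ⟨S, h3, h4⟩ := (e1.and e2).exists
  exact h2 S _ (Finset.mem_filter.2 ⟨h4 (Finset.mem_singleton_self _), hW⟩) ⟨(h1 S).1, h3⟩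

open scoped IntermediateField.algebraAdjoinAdjoin in
/-- An algebraic subextension of a finitely generated extension is finite. -/
theorem fg_fin (F k E : Type) [Field F] [Field k] [Field E] [Algebra F k] [Algebra k E]
    [Algebra F E] [IsScalarTower F k E] [Algebra.IsAlgebraic F k] [Algebra.EssFiniteType F E] :
    Module.Finite F k := by
  obtain ⟨s, hs⟩ := exists_isTranscendenceBasis k E
  have hF : IsTranscendenceBasis F ((↑) : s → E) :=
    (Algebra.IsAlgebraic.isTranscendenceBasis_iff F k).2 hs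
  let L := IntermediateField.adjoin F (Set.range ((↑) : s → E))
  have : Algebra.IsAlgebraic L E := hF.isAlgebraic_field
  have : Algebra.EssFiniteType L E := .of_comp F L E
  have : Module.Finite L E := Algebra.finite_of_essFiniteType_of_isAlgebraic
  rw [← Module.rank_lt_aleph0_iff]
  refine lt_of_le_of_lt (rank_le (n := Module.finrank L E) fun t ht => ?_)
    Cardinal.natCast_lt_aleph0
  have h1 : LinearIndependent (Algebra.adjoin F (Set.range ((↑) : s → E)))
      fun i : t => algebraMap k E i := by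
    rw [Fintype.linearIndependent_iff] at ht ⊢
    intro a ha i
    choose p hp using fun i => (Algebra.adjoin_range_eq_range_aeval F ((↑) : s → E)).le (a i).2
    have h2 : ∑ i : t, MvPolynomial.map (algebraMap F k) (p i) * MvPolynomial.C (i : k) = 0 := by
      refine hs.1 ?_
      rw [map_zero, map_sum, ← ha]
      refine Finset.sum_congr rfl fun i _ => ?_
      rw [map_mul, MvPolynomial.aeval_map_algebraMap, MvPolynomial.aeval_C, Subalgebra.smul_def,
        smul_eq_mul, ← hp i]
      rfl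
    have h3 : p i = 0 := MvPolynomial.ext _ _ fun m => ht (fun i => (p i).coeff m) (by
      simpa [MvPolynomial.coeff_sum, mul_comm, MvPolynomial.coeff_map, Algebra.smul_def]
        using congrArg (MvPolynomial.coeff m) h2) i
    exact Subtype.ext (by rw [← hp i, h3]; simp)
  simpa using ((LinearIndependent.iff_fractionRing _ L).1 h1).fintype_card_le_finrank

theorem fg_sub [Algebra.EssFiniteType ℂ K] (k : IntermediateField ℂ K) :
    Algebra.EssFiniteType ℂ k := by
  obtain ⟨s, hs⟩ := exists_isTranscendenceBasis ℂ k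
  have hfin : Finite s := finite_of_algebraicIndependent (hs.1.map' (f := k.val) k.val.injective)
  let F := IntermediateField.adjoin ℂ (Set.range ((↑) : s → k))
  have : Algebra.IsAlgebraic F k := hs.isAlgebraic_field
  have : Algebra.EssFiniteType F K := .of_comp ℂ F K
  have := fg_fin F k K
  have : Algebra.EssFiniteType ℂ F := IntermediateField.essFiniteType_iff.2
    (IntermediateField.fg_adjoin_of_finite (Set.finite_range _))
  exact .comp ℂ F k

theorem ZQ.down (h : ZQ K) (k : IntermediateField ℂ K)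
    (closed : ∀ e : K, IsAlgebraic k e → e ∈ k) : ZQ k := by
  intro κ _ T f fin cov coc
  have up : ∀ (S : Set k) (V : ValuationSubring K), Ov ((↑) '' S) V ↔
      Ov S (V.comap (algebraMap k K)) := fun S V =>
    ⟨fun hV => ⟨fun c => hV.1 c, fun z hz => hV.2 _ ⟨z, hz, rfl⟩⟩,
      fun hV => ⟨fun c => hV.1 c, by rintro _ ⟨z, hz, rfl⟩; exact hV.2 z hz⟩⟩
  obtain ⟨f₀, h₀⟩ := h κ (fun i => (↑) '' T i) (fun i => f i) (fun i => (fin i).image _)
    (fun V hV => (cov (V.comap (algebraMap k K)) ⟨hV.1, fun _ h => h.elim⟩).imp fun i hi =>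
      (up _ _).2 hi)
    fun i l V hi hl => coc i l _ ((up _ _).1 hi) ((up _ _).1 hl)
  obtain ⟨i, -⟩ := cov ⊤ ⟨fun _ => trivial, fun _ h => h.elim⟩
  have h1 : (f i : K) - f₀ ∈ k := by
    refine closed _ (IsIntegral.isAlgebraic ?_)
    exact int_of_val k.toSubalgebra fun V hV => h₀ i V
      ⟨fun c => hV _ (k.algebraMap_mem c), by rintro _ ⟨z, -, rfl⟩; exact hV _ z.2⟩
  have h2 : f₀ ∈ k := by simpa using sub_mem (f i).2 h1
  refine ⟨⟨f₀, h2⟩, fun l O hO => ?_⟩
  obtain ⟨V, hV⟩ := exists_ext (K := K) O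
  refine (hV _).1 (h₀ l V ((up _ _).2 ?_))
  rwa [show V.comap (algebraMap k K) = O from SetLike.ext hV]

end Pool.Agent.Lib.MP_bc213e_ag.SB
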